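import Mathlib
import Pool.Agent.H89R3.Z2

/-!
# Every `ℤ/2`-grading of the infinite dimensional Grassmann algebra is homogeneous up to isomorphism

Let `F` be a field of characteristic different from `2`, let `L` be an `F`-vector space with a
basis `b 0, b 1, …` and let `E = ExteriorAlgebra F L` be its Grassmann algebra.  For every
`ℤ/2`-grading `E = A 0 ⊕ A 1` there is a homogeneous `ℤ/2`-grading `E = B 0 ⊕ B 1` (every generator
lies in `B 0` or in `B 1`) and an algebra automorphism of `E` mapping `A i` onto `B i`.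
-/

set_option autoImplicit false

universe u v

open Pool.Agent.H89R3.Gr in
theorem Pool.Agent.Results.MP_7c306c_al.AllHomogeneous.result
    (F : Type u) [Field F] (hF : ringChar F ≠ 2)
    (L : Type v) [AddCommGroup L] [Module F L] (b : Module.Basis ℕ F L)
    (A : ZMod 2 → Submodule F (ExteriorAlgebra F L)) (hA : DirectSum.IsInternal A)
    (hmul : ∀ i j : ZMod 2, ∀ x ∈ A i, ∀ y ∈ A j, x * y ∈ A (i + j)) :
    ∃ B : ZMod 2 → Submodule F (ExteriorAlgebra F L),
      DirectSum.IsInternal B ∧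
      (∀ i j : ZMod 2, ∀ x ∈ B i, ∀ y ∈ B j, x * y ∈ B (i + j)) ∧
      (∀ n : ℕ, ExteriorAlgebra.ι F (b n) ∈ B 0 ∨ ExteriorAlgebra.ι F (b n) ∈ B 1) ∧
      ∃ f : ExteriorAlgebra F L ≃ₐ[F] ExteriorAlgebra F L,
        ∀ (i : ZMod 2) (x : ExteriorAlgebra F L), x ∈ A i ↔ f x ∈ B i := by
  classical
  have h2 : (2:F) ≠ 0 := Ring.two_ne_zero hF
  have huniv : (Set.univ : Set (ZMod 2)) = {0, 1} := by
    ext i
    constructor
    · intro _
      fin_cases i
      · exact Or.inl rfl
      · exact Or.inr rfl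
    · intro _; trivial
  have hcompl : IsCompl (A 0) (A 1) :=
    (DirectSum.isInternal_submodule_iff_isCompl A (by decide) huniv).mp hA
  -- decomposition
  have hdec : ∀ x, ∃ x0 ∈ A 0, ∃ x1 ∈ A 1, x0 + x1 = x := by
    intro x
    have hx : x ∈ A 0 ⊔ A 1 := by rw [hcompl.sup_eq_top]; trivial
    exact Submodule.mem_sup.mp hx
  have huniq : ∀ x0 ∈ A 0, ∀ x1 ∈ A 1, x0 + x1 = 0 → x0 = 0 ∧ x1 = 0 := by
    intro x0 h0 x1 h1 h
    have e1 : x0 = -x1 := eq_neg_of_add_eq_zero_left h
    have e2 : x0 ∈ A 0 ⊓ A 1 := ⟨h0, by rw [e1]; exact (A 1).neg_mem h1⟩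
    rw [hcompl.inf_eq_bot, Submodule.mem_bot] at e2
    refine ⟨e2, ?_⟩
    rw [e2, zero_add] at h; exact h
  choose p hp q hq hpq using hdec
  have hval : ∀ x, ∀ x0 ∈ A 0, ∀ x1 ∈ A 1, x0 + x1 = x → p x - q x = x0 - x1 := by
    intro x x0 h0 x1 h1 h
    have := huniq (p x - x0) ((A 0).sub_mem (hp x) h0) (q x - x1) ((A 1).sub_mem (hq x) h1) (by
      have := hpq x
      calc p x - x0 + (q x - x1) = (p x + q x) - (x0 + x1) := by abel
        _ = 0 := by rw [this, h, sub_self])
    rw [sub_eq_zero.mp this.1, sub_eq_zero.mp this.2]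
  -- the involution as a linear map
  let φl : ExteriorAlgebra F L →ₗ[F] ExteriorAlgebra F L :=
    { toFun := fun x => p x - q x
      map_add' := fun x y => by
        rw [hval (x + y) (p x + p y) ((A 0).add_mem (hp x) (hp y)) (q x + q y)
          ((A 1).add_mem (hq x) (hq y)) (by
            calc p x + p y + (q x + q y) = (p x + q x) + (p y + q y) := by abel
              _ = x + y := by rw [hpq, hpq])]
        abel
      map_smul' := fun c x => by
        rw [hval (c • x) (c • p x) ((A 0).smul_mem c (hp x)) (c • q x)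
          ((A 1).smul_mem c (hq x)) (by rw [← smul_add, hpq])]
        simp [smul_sub] }
  have hφl : ∀ x, ∀ x0 ∈ A 0, ∀ x1 ∈ A 1, x0 + x1 = x → φl x = x0 - x1 := hval
  have hφφ : ∀ x, φl (φl x) = x := by
    intro x
    have h1 : φl x = p x - q x := rfl
    rw [h1, hφl (p x - q x) (p x) (hp x) (-q x) ((A 1).neg_mem (hq x)) (by abel)]
    rw [sub_neg_eq_add, hpq]
  have hφmul : ∀ x y, φl (x * y) = φl x * φl y := by
    intro x y
    have h1 : p x * p y + q x * q y ∈ A 0 := by
      apply (A 0).add_mem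
      · exact hmul 0 0 _ (hp x) _ (hp y)
      · exact hmul 1 1 _ (hq x) _ (hq y)
    have h3 : p x * q y + q x * p y ∈ A 1 := by
      apply (A 1).add_mem
      · exact hmul 0 1 _ (hp x) _ (hq y)
      · exact hmul 1 0 _ (hq x) _ (hp y)
    rw [hφl (x * y) _ h1 _ h3 (by
      have e1 : x * y = (p x + q x) * (p y + q y) := by rw [hpq, hpq]
      rw [e1]; noncomm_ring)]
    have e1 : φl x = p x - q x := rfl
    have e2 : φl y = p y - q y := rfl
    rw [e1, e2]; noncomm_ring
  have hφone : φl 1 = 1 := by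
    have h1 : φl 1 * φl (φl 1) = φl (φl 1) := by
      rw [← hφmul, one_mul]
    rw [hφφ, mul_one] at h1
    exact h1
  let φ0 : ExteriorAlgebra F L →ₐ[F] ExteriorAlgebra F L := AlgHom.ofLinearMap φl hφone hφmul
  have hφ0 : φ0.comp φ0 = AlgHom.id F _ := by
    apply AlgHom.ext
    intro x
    exact hφφ x
  let φ : ExteriorAlgebra F L ≃ₐ[F] ExteriorAlgebra F L := AlgEquiv.ofAlgHom φ0 φ0 hφ0 hφ0
  have hφa : ∀ x, φ x = φl x := fun x => rfl
  have hA0 : ∀ x, φ x = x → x ∈ A 0 := by
    intro x hx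
    have h1 : p x - q x = p x + q x := by rw [hpq]; exact hx
    have h3 : q x = 0 := by
      have e : (2:F) • q x = (2:F) • 0 := by
        rw [two_smul, smul_zero]
        have : p x + q x - (p x - q x) = 0 := by rw [h1, sub_self]
        calc q x + q x = p x + q x - (p x - q x) := by abel
          _ = 0 := this
      exact cancel2 h2 e
    have h4 := hpq x
    rw [h3, add_zero] at h4
    rw [← h4]; exact hp x
  have hA1 : ∀ x, φ x = -x → x ∈ A 1 := by
    intro x hx
    have h1 : p x - q x = -(p x + q x) := by rw [hpq]; exact hx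
    have h3 : p x = 0 := by
      have e : (2:F) • p x = (2:F) • 0 := by
        rw [two_smul, smul_zero]
        calc p x + p x = (p x - q x) + (p x + q x) := by abel
          _ = 0 := by rw [h1]; abel
      exact cancel2 h2 e
    have h4 := hpq x
    rw [h3, zero_add] at h4
    rw [← h4]; exact hq x
  -- transport to the model
  let β : ExteriorAlgebra F L ≃ₐ[F] E F := mapE b.repr
  have hβ : ∀ n, β (ExteriorAlgebra.ι F (b n)) = e n := by
    intro n
    change mapE b.repr (ExteriorAlgebra.ι F (b n)) = e n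
    rw [mapE_ι, Module.Basis.repr_self]; rfl
  let φE : E F ≃ₐ[F] E F := (β.symm.trans φ).trans β
  have hφE : ∀ x, φE x = β (φ (β.symm x)) := fun x => rfl
  have hφEsq : φE * φE = 1 := by
    ext x
    change φE (φE x) = x
    rw [hφE, hφE, AlgEquiv.symm_apply_apply]
    have : φ (φ (β.symm x)) = β.symm x := hφφ _
    rw [this, AlgEquiv.apply_symm_apply]
  obtain ⟨Ψ, ε, hε, hΨ⟩ := involution h2 hφEsq
  let Θ : ExteriorAlgebra F L ≃ₐ[F] ExteriorAlgebra F L := (β.trans Ψ).trans β.symm
  have hΘ : ∀ n, φ (Θ (ExteriorAlgebra.ι F (b n))) = ε n • Θ (ExteriorAlgebra.ι F (b n)) := by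
    intro n
    have e1 : Θ (ExteriorAlgebra.ι F (b n)) = β.symm (Ψ (e n)) := by
      change β.symm (Ψ (β (ExteriorAlgebra.ι F (b n)))) = _
      rw [hβ]
    have h1 := congrArg β.symm (hΨ n)
    rw [hφE, AlgEquiv.symm_apply_apply, map_smul] at h1
    rw [e1, h1]
  refine ⟨fun i => (A i).map Θ.symm.toLinearMap, ?_, ?_, ?_, Θ.symm, ?_⟩
  · rw [DirectSum.isInternal_submodule_iff_isCompl _ (show (0 : ZMod 2) ≠ 1 by decide) huniv]
    exact hcompl.map (Submodule.orderIsoMapComap Θ.symm.toLinearEquiv)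
  · rintro i j _ ⟨x, hx, rfl⟩ _ ⟨y, hy, rfl⟩
    refine ⟨x * y, hmul i j x hx y hy, ?_⟩
    exact map_mul Θ.symm x y
  · intro n
    have hε' : ε n = 1 ∨ ε n = -1 := mul_self_eq_one_iff.mp (hε n)
    rcases hε' with h | h
    · left
      refine ⟨Θ (ExteriorAlgebra.ι F (b n)), hA0 _ ?_, ?_⟩
      · rw [hΘ, h, one_smul]
      · exact Θ.symm_apply_apply _
    · right
      refine ⟨Θ (ExteriorAlgebra.ι F (b n)), hA1 _ ?_, ?_⟩
      · rw [hΘ, h, neg_smul, one_smul]
      · exact Θ.symm_apply_apply _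
  · intro i x
    constructor
    · intro hx
      exact ⟨x, hx, rfl⟩
    · rintro ⟨y, hy, hyx⟩
      have : y = x := Θ.symm.injective hyx
      rw [← this]; exact hy
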